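import Pool.Agent.P.MP_0f6975_co.Quad

set_option autoImplicit false

namespace Pool.Agent.Results.MP_0f6975_co.QuadraticK4

open Pool.Agent.P.MP_0f6975_co.Quad

/-- For every `k ≥ 6` there is a convex polygon with `⌊(k-4)²/4⌋ + 3` vertices in which four
vertices have all their mutual distances among the `k` largest distinct distances. -/
theorem result :
    ∀ k : ℕ, 6 ≤ k → ∃ (P : Finset (EuclideanSpace ℝ (Fin 2))) (t : ℝ),
      P.card = (k - 4) ^ 2 / 4 + 3 ∧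
      (∀ x ∈ P, x ∉ convexHull ℝ ((P : Set (EuclideanSpace ℝ (Fin 2))) \ {x})) ∧
      {d : ℝ | t ≤ d ∧ ∃ x ∈ P, ∃ y ∈ P, x ≠ y ∧ d = dist x y}.ncard = k ∧
      ∃ Q ⊆ P, Q.card = 4 ∧ ∀ x ∈ Q, ∀ y ∈ Q, x ≠ y → t ≤ dist x y := by
  intro k hk
  obtain ⟨t, h1, h2⟩ := main (I := (k - 4) / 2) (J := (k - 3) / 2) (by omega) (by omega)
  refine ⟨PP ((k - 4) / 2) ((k - 3) / 2), t, ?_, conv_PP _ _, by rw [h1]; omega, h2⟩
  rw [card_PP]
  congr 1
  obtain ⟨r, rfl | rfl⟩ : ∃ r, k = 2 * r + 4 ∨ k = 2 * r + 5 := ⟨(k - 4) / 2, by omega⟩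
  · rw [show (2 * r + 4 - 4) / 2 = r by omega, show (2 * r + 4 - 3) / 2 = r by omega,
      show (2 * r + 4 - 4) ^ 2 = 4 * (r * r) by rw [Nat.add_sub_cancel]; ring]
    omega
  · rw [show (2 * r + 5 - 4) / 2 = r by omega, show (2 * r + 5 - 3) / 2 = r + 1 by omega,
      show (2 * r + 5 - 4) ^ 2 = 4 * (r * (r + 1)) + 1 by
        rw [show 2 * r + 5 - 4 = 2 * r + 1 by omega]; ring]
    omega

end Pool.Agent.Results.MP_0f6975_co.QuadraticK4
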